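import Pool.Agent.Lib.helper32.Sier

set_option autoImplicit false

namespace Pool.Agent.Results.MP_10f401_gt.LuzProd

open Filter Set Topology TopologicalSpace Pool.Agent.Lib.helper32

/-- The Cantor space `2^ℕ`. -/
abbrev G : Type := ℕ → ZMod 2

/-- `cov(𝓜)`. -/
noncomputable def covM : Cardinal :=
  sInf {c | ∃ F : Set (Set G), (∀ M ∈ F, IsMeagre M) ∧ ⋃₀ F = univ ∧ Cardinal.mk F = c}

/-- `κ`-Luzin sets. -/
def Luzin (κ : Cardinal) (X : Set G) : Prop :=
  κ ≤ Cardinal.mk X ∧ ∀ M, IsMeagre M → Cardinal.mk (X ∩ M : Set G) < κ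

/-- The Menger property. -/
def Menger (Z : Type) [TopologicalSpace Z] : Prop := ∀ 𝓤 : ℕ → Set (Set Z),
  (∀ n, (∀ U ∈ 𝓤 n, IsOpen U) ∧ ⋃₀ 𝓤 n = univ) → ∃ 𝓕 : ℕ → Set (Set Z),
    (∀ n, (𝓕 n).Finite ∧ 𝓕 n ⊆ 𝓤 n) ∧ ∀ z, ∃ n, z ∈ ⋃₀ 𝓕 n

/-- The Rothberger property. -/
def Rothberger (Z : Type) [TopologicalSpace Z] : Prop := ∀ 𝓤 : ℕ → Set (Set Z),
  (∀ n, (∀ U ∈ 𝓤 n, IsOpen U) ∧ ⋃₀ 𝓤 n = univ) → ∃ U : ℕ → Set Z,
    (∀ n, U n ∈ 𝓤 n) ∧ ∀ z, ∃ n, z ∈ U n

theorem clo (p : G) : IsClosed {c : G | ∀ i, c (2 * i + 1) = p (2 * i + 1)} := by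
  simp only [setOf_forall]
  exact isClosed_iInter fun i => isClosed_eq (continuous_apply _) continuous_const

theorem cl (p : G) : IsMeagre {c : G | ∀ i, c (2 * i + 1) = p (2 * i + 1)} := by
  refine residual_of_dense_open (clo p).isOpen_compl fun y => mem_closure_of_tendsto
    (f := fun n => Function.update y (2 * n + 1) (p (2 * n + 1) + 1)) (b := atTop)
    (tendsto_pi_nhds.2 fun i => tendsto_const_nhds.congr' ((eventually_gt_atTop i).mono
      fun n hn => (Function.update_of_ne (by omega) _ _).symm)) (.of_forall fun n e => ?_)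
  simpa using e n

theorem cm {S : Set G} (h : S.Countable) : IsMeagre S := by
  rw [← biUnion_of_singleton S]
  exact isMeagre_biUnion h fun p _ => (cl p).mono (by rintro _ rfl _; rfl)

theorem rho (f : ℕ → ℕ) : ∃ ρ : G → G, Continuous ρ ∧ Function.Injective ρ ∧
    (∀ z i, ρ z (2 * i + 1) = 0) ∧ ρ 0 = 0 ∧
      ∀ z n (s : Finset ℕ), (∀ i ∈ s, i < f n ∧ ρ z i ≠ 0) → s.card ≤ n := by
  classical
  let γ : ℕ → ℕ := fun k => k.rec (f 0) fun k n => f (k + 1) + n + 1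
  have g1 : StrictMono γ :=
    strictMono_nat_of_lt_succ fun k => Nat.lt_succ_of_le (Nat.le_add_left _ _)
  have g2 : ∀ n, f n ≤ γ n := fun n => by
    cases n
    exacts [le_rfl, (Nat.le_add_right _ _).trans (Nat.le_succ _)]
  have g3 : Function.Injective fun k => 2 * γ k := fun a b e => g1.injective (by
    have e' : 2 * γ a = 2 * γ b := e
    omega)
  refine ⟨fun z => Function.extend (fun k => 2 * γ k) z 0, continuous_pi fun i => ?_,
    fun z w e => funext fun k => ?_, fun z i => Function.extend_apply' _ _ _ fun ⟨k, e⟩ => ?_,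
      funext fun i => ?_, fun z n s h => ?_⟩
  · by_cases c : ∃ k, 2 * γ k = i
    · obtain ⟨k, rfl⟩ := c
      simp only [g3.extend_apply]
      exact continuous_apply k
    · simp only [Function.extend_apply' _ _ _ c]
      exact continuous_const
  · have c := congrFun e (2 * γ k)
    simpa only [g3.extend_apply] using c
  · omega
  · show Function.extend (fun k => 2 * γ k) (0 : G) (0 : G) i = 0
    by_cases c : ∃ k, 2 * γ k = i
    · obtain ⟨k, rfl⟩ := c
      exact g3.extend_apply _ _ _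
    · exact Function.extend_apply' _ _ _ c
  · refine (Finset.card_le_card (t := (Finset.range n).image fun k => 2 * γ k) fun i hi => ?_).trans
      (Finset.card_image_le.trans (Finset.card_range n).le)
    obtain ⟨k, rfl⟩ : ∃ k, 2 * γ k = i :=
      by_contra fun c => (h i hi).2 (Function.extend_apply' _ _ _ c)
    refine Finset.mem_image_of_mem _ (Finset.mem_range.2 (g1.lt_iff_lt.1 ?_))
    have := (h _ hi).1
    have := g2 n
    omega

theorem result (hCH : Cardinal.continuum.{0} = Cardinal.aleph 1) (X : Set G) (hX : Luzin covM X) :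
    ∃ Y : Set G, (∀ k, Rothberger (Fin (k + 1) → Y)) ∧ ¬ Menger (X × Y) := by
  classical
  have h0 : covM ≤ Cardinal.aleph 1 := by
    refine le_trans (b := Cardinal.mk (range (singleton : G → Set G))) (csInf_le' ?_)
      (Cardinal.mk_range_le.trans (by simp [← hCH]))
    exact ⟨_, by rintro _ ⟨p, rfl⟩; exact cm (countable_singleton p),
      eq_univ_of_forall fun x => ⟨{x}, mem_range_self x, rfl⟩, rfl⟩
  have h1 : ∀ M, IsMeagre M → (X ∩ M).Countable := fun M h =>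
    (Cardinal.countable_iff_lt_aleph_one _).2 ((hX.2 M h).trans_le h0)
  have h2 : ∀ M ∈ residual G, ∃ x ∈ X, x ∈ M := fun M h => by_contra fun c => by
    have e := hX.2 Mᶜ (by rwa [IsMeagre, compl_compl])
    rw [show X ∩ Mᶜ = X from inter_eq_left.2 fun x hx e => c ⟨x, hx, e⟩] at e
    exact e.not_ge hX.1
  let D : Set G := {c | (∀ i, c (2 * i + 1) = 0) ∧ {i | c i ≠ 0}.Finite}
  have d1 : D.Countable := (Set.Countable.setOf_finite.preimage
    (f := fun b : G => {i | b i ≠ 0}) fun a b e => funext fun i => by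
      have c : a i ≠ 0 ↔ b i ≠ 0 := Set.ext_iff.1 e i
      revert c
      generalize a i = u
      generalize b i = w
      revert u w
      decide).mono fun c hc => hc.2
  have bad : ∀ ρ : G → G, Function.Injective ρ → (∀ z i, ρ z (2 * i + 1) = 0) → ∀ p,
      ∀ᶠ z in residual G, ∀ q ∈ D, p + ρ z - q ∉ X := fun ρ r2 r3 p =>
    (eventually_countable_ball d1).2 fun q _ => by
      refine cm (S := {z | p + ρ z - q ∈ X}) (((h1 _ (cl (p - q))).preimage
        (f := fun z => p + ρ z - q) fun z w e => r2 (by simpa using e)).mono fun z hz => ?_)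
      exact ⟨hz, fun i => by simp [r3]⟩
  obtain ⟨Q, q1, q2, q3⟩ := Dense.exists_countable_dense_subset
    (s := {y | ∀ q ∈ D, y - q ∉ X}) (dense_iff_inter_open.2 fun U u1 ⟨p, u2⟩ => by
      obtain ⟨ρ, r1, r2, r3, r4, -⟩ := rho id
      obtain ⟨z, z1, z2⟩ := (dense_of_mem_residual (bad ρ r2 r3 p)).inter_open_nonempty _
        (u1.preimage (continuous_const.add r1 : Continuous fun z => p + ρ z)) ⟨0, by simpa [r4]⟩
      exact ⟨_, z1, z2⟩)
  obtain ⟨q0, q4⟩ := q3.nonempty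
  have st : ∀ (f : ℕ → ℕ) (V : G → Prop), (∀ᶠ y in residual G, V y) → ∃ y, V y ∧
      (∀ q ∈ D, y - q ∉ X) ∧ ∃ x ∈ X, (∀ i, (y - x) (2 * i + 1) = 0) ∧
        ∀ n (s : Finset ℕ), (∀ i ∈ s, i < f n ∧ (y - x) i ≠ 0) → s.card ≤ n := fun f V hV => by
    obtain ⟨ρ, r1, r2, r3, -, r5⟩ := rho f
    obtain ⟨S, s1, s2, s3, s4⟩ := mem_residual_iff.1 hV
    obtain ⟨x, x1, x2⟩ := h2 {x | ∀ t ∈ S, ∀ B ∈ countableBasis G, ∃ z ∈ B, x + ρ z ∈ t}
      ((eventually_countable_ball s3).2 fun t ht =>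
        (eventually_countable_ball (countable_countableBasis G)).2 fun B hB => by
          obtain ⟨z, hz⟩ := nonempty_of_mem_countableBasis hB
          exact mem_of_superset (residual_of_dense_open ((s1 t ht).preimage
            (continuous_add_right (ρ z))) ((s2 t ht).preimage
              (Homeomorph.addRight (ρ z)).isOpenMap)) fun x hx => ⟨z, hz, hx⟩)
    have a1 : ∀ᶠ z in residual G, ∀ t ∈ S, x + ρ z ∈ t :=
      (eventually_countable_ball s3).2 fun t ht => residual_of_dense_open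
        ((s1 t ht).preimage (continuous_const.add r1))
          ((isBasis_countableBasis G).dense_iff.2 fun B hB _ => x2 t ht B hB)
    obtain ⟨z, z1, z2⟩ := (dense_of_mem_residual (a1.and (bad ρ r2 r3 x))).nonempty
    exact ⟨_, s4 z1, z2, x, x1, by simpa using r3 z, by simpa only [add_sub_cancel_left] using r5 z⟩
  choose B b1 using fun k => (countable_countableBasis (Fin (k + 1) → G)).exists_eq_range
    ((isBasis_countableBasis _).exists_subset_of_mem_open (mem_univ 0) isOpen_univ |>.imp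
      fun _ h => h.1)
  have b2 : ∀ k i, IsOpen (B k i) := fun k i => isOpen_of_mem_countableBasis (b1 k ▸ ⟨i, rfl⟩)
  have m0 : ∀ (t : ℕ × (ℕ → Set ℕ) × (ℕ → ℕ)) (A : Set G), ∃ m : ℕ → ℕ, A.Countable → q0 ∈ A →
      (∀ n v, (∀ l, v l ∈ A) → ∃ i ∈ t.2.1 n, v ∈ B t.1 i) → (∀ n, m n ∈ t.2.1 n) ∧
        ∀ v, (∀ l, v l ∈ A) → v ∈ ⋃ n, B t.1 (m n) := fun t A => by
    by_cases c : A.Countable ∧ q0 ∈ A ∧ ∀ n v, (∀ l, v l ∈ A) → ∃ i ∈ t.2.1 n, v ∈ B t.1 i
    · obtain ⟨e, he⟩ := (countable_pi (s := fun _ : Fin (t.1 + 1) => A) fun _ => c.1).exists_eq_range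
        ⟨fun _ => q0, fun _ => c.2.1⟩
      choose m c1 c2 using fun n => c.2.2 n (e n) ((Set.ext_iff.1 he _).2 ⟨n, rfl⟩)
      exact ⟨m, fun _ _ _ => ⟨c1, fun v hv => let ⟨n, h⟩ := (Set.ext_iff.1 he v).1 hv
        mem_iUnion.2 ⟨n, h ▸ c2 n⟩⟩⟩
    · exact ⟨id, fun a b d => absurd ⟨a, b, d⟩ c⟩
  choose M m1 using m0
  obtain ⟨T, ⟨d⟩⟩ : ∃ T : Type, Nonempty (T ≃ ℕ × (ℕ → Set ℕ) × (ℕ → ℕ)) := ⟨_, ⟨.refl _⟩⟩
  have hI : Cardinal.mk T = Cardinal.aleph 1 := by rw [← hCH, Cardinal.mk_congr d]; simp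
  obtain ⟨lo, _, ho⟩ := Cardinal.exists_ord_eq_type_lt T
  have t0 : ∀ j : T, (Iio j).Countable := fun j =>
    (Cardinal.countable_iff_lt_aleph_one _).2 ((Cardinal.mk_Iio_lt j ho).trans_eq hI)
  have t1 : ∀ j : T, (Iic j).Countable := fun j => Iio_insert (a := j) ▸ (t0 j).insert j
  obtain ⟨p, hp⟩ := NormalWL.rec_ex (T := T) (Y := G) (fun j f y => (∀ i ∈ Iic j,
      (∀ v, (∀ l, v l ∈ Q ∪ f '' Iio j) → v ∈ ⋃ n, B (d i).1 (M (d i) (Q ∪ f '' Iio i) n)) →
      ∀ v, (∀ l, v l ∈ insert y (Q ∪ f '' Iio j)) →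
        v ∈ ⋃ n, B (d i).1 (M (d i) (Q ∪ f '' Iio i) n)) ∧
      (∀ q ∈ D, y - q ∉ X) ∧ ∃ x ∈ X, (∀ i, (y - x) (2 * i + 1) = 0) ∧
        ∀ n (s : Finset ℕ), (∀ i ∈ s, i < (d j).2.2 n ∧ (y - x) i ≠ 0) → s.card ≤ n)
    (fun j f => st _ _ ((eventually_countable_ball (t1 j)).2 fun i _ => by
      refine eventually_imp_distrib_left.2 fun h => ?_
      have a1 : ∀ᶠ y in residual G, ∀ v ∈ {v : Fin ((d i).1 + 1) → G | ∀ l, v l ∈ Q ∪ f '' Iio j},
          ∀ s : Fin ((d i).1 + 1) → Bool, (fun l => if s l then y else v l) ∈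
            ⋃ n, B (d i).1 (M (d i) (Q ∪ f '' Iio i) n) :=
        (eventually_countable_ball (countable_pi fun _ => q2.union ((t0 j).image f))).2
          fun v hv => eventually_countable_forall.2 fun s => residual_of_dense_open
            ((isOpen_iUnion fun n => b2 _ _).preimage (continuous_pi fun l => by
              split_ifs
              exacts [continuous_id, continuous_const])) (q3.mono fun q hq => h _ fun l => by
                split_ifs
                exacts [Or.inl hq, hv l])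
      refine a1.mono fun y hy v hv => ?_
      have a2 := hy (fun l => if v l = y then q0 else v l) (fun l => by
        dsimp only
        split_ifs with c
        exacts [Or.inl q4, (hv l).resolve_left c]) fun l => decide (v l = y)
      convert a2 using 1
      funext l
      by_cases c : v l = y <;> simp [c]))
    fun j f g y e h => ⟨fun i hi => by
      rw [← image_congr (s := Iio j) (f := f) (g := g) e, ← image_congr (s := Iio i) (f := f)
        (g := g) fun a ha => e a (lt_of_lt_of_le ha hi)]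
      exact h.1 i hi, h.2⟩
  refine ⟨Q ∪ range p, fun k 𝓤 hU => ?_, fun h => ?_⟩
  · let π : (Fin (k + 1) → (Q ∪ range p : Set G)) → Fin (k + 1) → G := fun v l => v l
    have p1 : IsInducing π := IsInducing.piMap fun _ => .subtypeVal
    obtain ⟨i, hi⟩ := d.surjective (k, fun n => {a | ∃ U ∈ 𝓤 n, π ⁻¹' B k a ⊆ U}, id)
    obtain ⟨c1, c2⟩ := m1 (k, fun n => {a | ∃ U ∈ 𝓤 n, π ⁻¹' B k a ⊆ U}, id) (Q ∪ p '' Iio i)
      (q2.union ((t0 i).image p)) (Or.inl q4) fun n v hv => by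
        let w : Fin (k + 1) → (Q ∪ range p : Set G) := fun l =>
          ⟨v l, (hv l).imp_right (image_subset_range _ _ ·)⟩
        obtain ⟨U, u1, u2⟩ := ((hU n).2 ▸ mem_univ w : w ∈ ⋃₀ 𝓤 n)
        obtain ⟨O, o1, rfl⟩ := p1.isOpen_iff.1 ((hU n).1 U u1)
        obtain ⟨_, o2, o3, o4⟩ := (isBasis_countableBasis _).exists_subset_of_mem_open
          (show v ∈ O from u2) o1
        obtain ⟨a, rfl⟩ := b1 k ▸ o2
        exact ⟨a, ⟨_, u1, preimage_mono o4⟩, o3⟩
    choose U u1 u2 using c1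
    generalize hW : (⋃ n, B k (M (k, fun n => {a | ∃ U ∈ 𝓤 n, π ⁻¹' B k a ⊆ U}, id)
      (Q ∪ p '' Iio i) n)) = W at c2
    have mx : ∀ J : Set T, (∀ a ∈ J, ∀ v, (∀ l, v l ∈ Q ∪ p '' Iic a) → v ∈ W) →
        ∀ v, (∀ l, ∃ a ∈ J, v l ∈ Q ∪ p '' Iic a) → v ∈ W := fun J hJ v hv => by
      choose a a1 a2 using hv
      obtain ⟨l, hl⟩ := Finite.exists_max a
      exact hJ _ (a1 l) v fun l' => (a2 l').imp_right (image_mono (Iic_subset_Iic.2 (hl l')) ·)
    have c3 : ∀ j ∈ Ici i, ∀ v, (∀ l, v l ∈ Q ∪ p '' Iic j) → v ∈ W := fun j => by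
      induction j using WellFoundedLT.induction with
      | ind j ih =>
        intro hj v hv
        have e := (hp j).1 i hj
        rw [hi] at e
        refine hW ▸ e (hW ▸ fun v hv => ?_) v fun l => ?_
        · rcases (hj : i ≤ j).eq_or_lt with rfl | c
          · exact c2 v hv
          refine mx (Ico i j) (fun a ha => ih a ha.2 ha.1) v fun l => ?_
          rcases hv l with c4 | ⟨a, c4, c5⟩
          exacts [⟨i, ⟨le_rfl, c⟩, Or.inl c4⟩, ⟨max i a, ⟨le_max_left _ _, max_lt c c4⟩,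
            Or.inr ⟨a, le_max_right _ _, c5⟩⟩]
        · rcases hv l with c4 | ⟨a, c4, c5⟩
          · exact Or.inr (Or.inl c4)
          rcases (c4 : a ≤ j).eq_or_lt with rfl | c
          exacts [Or.inl c5.symm, Or.inr (Or.inr ⟨a, c, c5⟩)]
    refine ⟨U, u1, fun v => ?_⟩
    have c4 := mx _ c3 (π v) fun l => by
      rcases (v l).2 with c4 | ⟨a, c5⟩
      exacts [⟨i, le_rfl, Or.inl c4⟩, ⟨max i a, le_max_left _ _, Or.inr ⟨a, le_max_right _ _, c5⟩⟩]
    obtain ⟨n, hn⟩ := mem_iUnion.1 (hW ▸ c4)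
    exact ⟨n, u2 n hn⟩
  let O : ℕ → ℕ → Set (X × (Q ∪ range p : Set G)) := fun n m => (fun z => z.2.1 - z.1.1) ⁻¹'
    ({c : G | ∀ i, c (2 * i + 1) = (0 : G) (2 * i + 1)}ᶜ ∪
      ⋃ s ∈ {s : Finset ℕ | n < s.card ∧ ∀ i ∈ s, i < m}, ⋂ i ∈ s, {c | c i ≠ 0})
  obtain ⟨𝓕, a1, a2⟩ := h (fun n => range (O n)) fun n => ⟨by
      rintro _ ⟨m, rfl⟩
      exact ((clo 0).isOpen_compl.union (isOpen_biUnion fun s _ => isOpen_biInter_finset fun i _ =>
        isOpen_ne_fun (continuous_apply i) continuous_const)).preimage (by fun_prop),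
    eq_univ_of_forall fun ⟨x, y⟩ => by
      by_cases c : ∀ i, (y.1 - x.1) (2 * i + 1) = 0
      · have c1 : ∀ q ∈ D, y.1 - q ∉ X := y.2.elim (q1 ·) fun ⟨j, e⟩ => e ▸ (hp j).2.1
        obtain ⟨s, s1, s2⟩ := Set.Infinite.exists_subset_card_eq (s := {i | (y.1 - x.1) i ≠ 0})
          (fun e => c1 _ ⟨c, e⟩ (by simp)) (n + 1)
        exact ⟨_, ⟨s.sup id + 1, rfl⟩, Or.inr (mem_biUnion (x := s) ⟨by omega, fun i hi =>
          Nat.lt_succ_of_le (Finset.le_sup (f := id) hi)⟩ (mem_iInter₂.2 fun i hi => s1 hi))⟩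
      · exact ⟨_, ⟨0, rfl⟩, Or.inl c⟩⟩
  choose! ν hν using fun n W (hW : W ∈ 𝓕 n) => (a1 n).2 hW
  choose f hf using fun n => ((a1 n).1.image (ν n)).bddAbove
  obtain ⟨j, hj⟩ := d.surjective (0, fun _ => ∅, f)
  obtain ⟨x, x1, x2, x3⟩ := (hp j).2.2
  obtain ⟨n, W, c2, c3⟩ := a2 (⟨x, x1⟩, ⟨p j, Or.inr ⟨j, rfl⟩⟩)
  rw [← hν n W c2] at c3
  rcases c3 with c | c
  · exact c x2
  obtain ⟨s, s1, s2⟩ := mem_iUnion₂.1 c
  refine s1.1.not_ge (x3 n s fun i hi => ⟨?_, mem_iInter₂.1 s2 i hi⟩)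
  rw [hj]
  exact (s1.2 i hi).trans_le (hf n ⟨W, c2, rfl⟩)

end Pool.Agent.Results.MP_10f401_gt.LuzProd
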